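import Pool.Agent.Helper79.CF.Spec

/-!
# MP_a17b09_nt, part IDX: the index of a bad set is a power of the logarithm
-/

set_option autoImplicit false

namespace Pool.Agent.Helper74.CF.IDX

open Pool.Agent.Helper79.CF

theorem main : S_IDX := by
  intro q K
  refine ⟨2 * (8 * K + 24), max q 4, fun a ha r hr N hN => ?_⟩
  have hq : q ≤ a := le_trans (le_max_left _ _) ha
  have h4 : 4 ≤ a := le_trans (le_max_right _ _) ha
  obtain ⟨b, hb⟩ : ∃ b, b = a + 1 := ⟨_, rfl⟩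
  rw [← hb] at hr
  have hb5 : 5 ≤ b := by omega
  have hbp : ∀ k : ℕ, k ≠ 0 → b ≤ b ^ k := fun k hk => Nat.le_self_pow hk b
  have h1 : b ^ (K + 2) + 1 ≤ b ^ (K + 3) := by
    have h : b ^ (K + 3) = b ^ (K + 2) * b := pow_succ _ _
    have h' : 1 ≤ b ^ (K + 2) := Nat.one_le_pow _ _ (by omega)
    rw [h]; nlinarith
  have hp : Nat.pair a r < (b ^ (K + 3)) ^ 2 := by
    refine lt_of_lt_of_le (Nat.pair_lt_max_add_one_sq a r) (Nat.pow_le_pow_left ?_ 2)
    have := hbp (K + 2) (by omega)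
    have : max a r ≤ b ^ (K + 2) := max_le (by omega) hr
    omega
  have hp' : Nat.pair a r + 1 ≤ b ^ (2 * K + 6) := by
    have : (b ^ (K + 3)) ^ 2 = b ^ (2 * K + 6) := by rw [← pow_mul]; congr 1; ring
    omega
  have hpq : Nat.pair q (Nat.pair a r) < (b ^ (2 * K + 6)) ^ 2 := by
    refine lt_of_lt_of_le (Nat.pair_lt_max_add_one_sq q _) (Nat.pow_le_pow_left ?_ 2)
    have := hbp (2 * K + 6) (by omega)
    have : max q (Nat.pair a r) + 1 ≤ b ^ (2 * K + 6) := by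
      rcases max_cases q (Nat.pair a r) with h | h <;> omega
    exact this
  have hpq' : Nat.pair q (Nat.pair a r) + 1 ≤ b ^ (4 * K + 12) := by
    have : (b ^ (2 * K + 6)) ^ 2 = b ^ (4 * K + 12) := by rw [← pow_mul]; congr 1; ring
    omega
  have h5 : ((Nat.pair q (Nat.pair a r) : ℝ) + 1) ^ 2 ≤ (b : ℝ) ^ (8 * K + 24) := by
    have h : ((Nat.pair q (Nat.pair a r) : ℝ) + 1) ≤ (b : ℝ) ^ (4 * K + 12) := by exact_mod_cast hpq'
    calc ((Nat.pair q (Nat.pair a r) : ℝ) + 1) ^ 2 ≤ ((b : ℝ) ^ (4 * K + 12)) ^ 2 :=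
          pow_le_pow_left₀ (by positivity) h 2
      _ = (b : ℝ) ^ (8 * K + 24) := by rw [← pow_mul]; congr 1; ring
  have har : (4 : ℝ) ≤ a := by exact_mod_cast h4
  have hlog : (a : ℝ) * Real.log 2 ≤ Real.log N := by
    rw [← Real.log_pow]
    apply Real.log_le_log (by positivity)
    exact_mod_cast hN
  have hl2 : (0.69 : ℝ) < Real.log 2 := by have := Real.log_two_gt_d9; linarith
  have hlog' : 0.69 * (a : ℝ) ≤ Real.log N := by nlinarith
  have h6 : (b : ℝ) ≤ (Real.log N) ^ 2 := by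
    have hbr : (b : ℝ) = a + 1 := by rw [hb]; push_cast; ring
    have : (0.69 * (a : ℝ)) ^ 2 ≤ (Real.log N) ^ 2 := pow_le_pow_left₀ (by positivity) hlog' 2
    nlinarith
  calc ((Nat.pair q (Nat.pair a r) : ℝ) + 1) ^ 2 ≤ (b : ℝ) ^ (8 * K + 24) := h5
    _ ≤ ((Real.log N) ^ 2) ^ (8 * K + 24) := pow_le_pow_left₀ (by positivity) h6 _
    _ = (Real.log N) ^ (2 * (8 * K + 24)) := by rw [← pow_mul]

end Pool.Agent.Helper74.CF.IDX
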